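import Mathlib

namespace Pool.Agent.Results.MP_38a930_nt.Counter

open Finset

def P2 : Set ℤ := {x | ∃ q : ℕ, q.Prime ∧ (q + 2).Prime ∧ (x = q ∨ x = q + 2)}

def P4 : Set ℤ := {x | ∃ q : ℕ, q.Prime ∧ (q + 2).Prime ∧ (q + 6).Prime ∧ (q + 8).Prime ∧
  (x = q ∨ x = q + 2 ∨ x = q + 6 ∨ x = q + 8)}

def IsOrd (X : Set ℤ) (p k : ℕ) (a : ℕ → ℤ) : Prop :=
  (∀ i ≤ k, a i ∈ X) ∧ ∀ j, 1 ≤ j → j ≤ k → ∀ x ∈ X,
    emultiplicity (p : ℤ) (∏ i ∈ range j, (a j - a i)) ≤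
      emultiplicity (p : ℤ) (∏ i ∈ range j, (x - a i))

def IsFact (X : Set ℤ) (k N : ℕ) : Prop :=
  0 < N ∧ ∀ p : ℕ, p.Prime → ∃ a : ℕ → ℤ, IsOrd X p k a ∧
    emultiplicity (p : ℤ) (N : ℤ) = emultiplicity (p : ℤ) (∏ i ∈ range k, (a k - a i))

theorem ex_ord {X : Set ℤ} (hX : X.Nonempty) (p k : ℕ) : ∃ a, IsOrd X p k a := by
  induction k with
  | zero =>
    obtain ⟨x, hx⟩ := hX
    exact ⟨fun _ => x, fun _ _ => hx, fun j h1 h2 => by omega⟩
  | succ k ih =>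
    obtain ⟨a, h1, h2⟩ := ih
    obtain ⟨_, ⟨x, hx, rfl⟩, hm'⟩ := (wellFounded_lt (α := ℕ∞)).has_min
      ((fun x => emultiplicity (p : ℤ) (∏ i ∈ range (k + 1), (x - a i))) '' X) (hX.image _)
    have hm : ∀ y ∈ X, emultiplicity (p : ℤ) (∏ i ∈ range (k + 1), (x - a i)) ≤
        emultiplicity (p : ℤ) (∏ i ∈ range (k + 1), (y - a i)) :=
      fun y hy => not_lt.1 (hm' _ ⟨y, hy, rfl⟩)
    refine ⟨Function.update a (k + 1) x, fun i hi => ?_, fun j hj hjk y hy => ?_⟩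
    · rcases Nat.lt_or_ge i (k + 1) with h | h
      · rw [Function.update_of_ne h.ne]; exact h1 i (by omega)
      · rw [show i = k + 1 by omega, Function.update_self]; exact hx
    · have e : ∀ z : ℤ, ∏ i ∈ range j, (z - Function.update a (k + 1) x i) =
          ∏ i ∈ range j, (z - a i) := fun z => prod_congr rfl fun i hi => by
        rw [Function.update_of_ne (by have := mem_range.1 hi; omega)]
      rw [e, e]
      rcases Nat.lt_or_ge j (k + 1) with h | h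
      · rw [Function.update_of_ne h.ne]; exact h2 j hj (by omega) y hy
      · obtain rfl : j = k + 1 := by omega
        rw [Function.update_self]; exact hm y hy

theorem avoid {d : ℤ} {k : ℕ} (T : Finset ℤ) (hk : k < T.card)
    (hT : ∀ x ∈ T, ∀ y ∈ T, d ∣ x - y → x = y) (a : ℕ → ℤ) :
    ∃ x ∈ T, ∀ i ∈ range k, ¬ d ∣ x - a i := by
  by_contra hc
  push Not at hc
  choose! f hf using hc
  obtain ⟨x, hx, y, hy, hne, he⟩ := exists_ne_map_eq_of_card_lt_of_maps_to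
    (s := T) (t := range k) (f := f) (by simpa using hk) (fun x hx => (hf x hx).1)
  refine hne (hT x hx y hy ?_)
  have := dvd_sub (hf x hx).2 (hf y hy).2
  rw [he] at this
  simpa using this

theorem zero_of {X : Set ℤ} {p k : ℕ} (hp : p.Prime) (hk1 : 1 ≤ k) {a : ℕ → ℤ}
    (ha : IsOrd X p k a) (T : Finset ℤ) (hTX : ∀ x ∈ T, x ∈ X) (hk : k < T.card)
    (hT : ∀ x ∈ T, ∀ y ∈ T, (p : ℤ) ∣ x - y → x = y) :
    emultiplicity (p : ℤ) (∏ i ∈ range k, (a k - a i)) = 0 := by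
  obtain ⟨x, hx, h⟩ := avoid T hk hT a
  have := ha.2 k hk1 le_rfl x (hTX x hx)
  rw [emultiplicity_eq_zero.2 (show ¬ (p : ℤ) ∣ ∏ i ∈ range k, (x - a i) from fun hd => by
    obtain ⟨i, hi, hd⟩ := (Nat.prime_iff_prime_int.1 hp).exists_mem_finset_dvd hd
    exact h i hi hd)] at this
  exact le_antisymm this bot_le

theorem ex_fact {X : Set ℤ} {k B : ℕ} (hk1 : 1 ≤ k) (T : Finset ℤ) (hTX : ∀ x ∈ T, x ∈ X)
    (hk : k < T.card) (hB : ∀ x ∈ T, 0 ≤ x ∧ x < B) : ∃ N, IsFact X k N := by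
  obtain ⟨x0, hx0⟩ := card_pos.1 (Nat.zero_lt_of_lt hk)
  choose a ha using fun p => ex_ord ⟨x0, hTX x0 hx0⟩ p k
  have fin : ∀ p : ℕ, p.Prime → ∃ e : ℕ,
      emultiplicity (p : ℤ) (∏ i ∈ range k, (a p k - a p i)) = e := by
    intro p hp
    obtain ⟨x, hx, h⟩ := avoid (d := 0) T hk (fun x _ y _ h => by
      rwa [zero_dvd_iff, sub_eq_zero] at h) (a p)
    have h1 := (ha p).2 k hk1 le_rfl x (hTX x hx)
    have h2 : emultiplicity (p : ℤ) (∏ i ∈ range k, (x - a p i)) < ⊤ := by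
      rw [emultiplicity_lt_top, Int.finiteMultiplicity_iff]
      exact ⟨by simpa using hp.one_lt.ne', prod_ne_zero_iff.2 fun i hi h0 =>
        h i hi (zero_dvd_iff.2 h0)⟩
    exact ⟨_, (ENat.coe_toNat (h1.trans_lt h2).ne).symm⟩
  choose! e he using fin
  refine ⟨∏ q ∈ (range B).filter Nat.Prime, q ^ e q,
    prod_pos fun q hq => pow_pos (mem_filter.1 hq).2.pos _, fun p hp => ⟨a p, ha p, ?_⟩⟩
  have hp' := Nat.prime_iff_prime_int.1 hp
  have key : ∀ q ∈ (range B).filter Nat.Prime, q ≠ p →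
      emultiplicity (p : ℤ) ((q : ℤ) ^ e q) = 0 := fun q hq hne =>
    emultiplicity_eq_zero.2 fun hd => hne ((Nat.prime_dvd_prime_iff_eq hp (mem_filter.1 hq).2).1
      (Int.natCast_dvd_natCast.1 (hp'.dvd_of_dvd_pow hd))).symm
  push_cast
  rw [Finset.emultiplicity_prod hp']
  rcases Nat.lt_or_ge p B with h | h
  · rw [sum_eq_single_of_mem p (mem_filter.2 ⟨mem_range.2 h, hp⟩) key, he p hp,
      emultiplicity_pow_self_of_prime hp']
  · rw [sum_eq_zero fun q hq => key q hq (by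
      have := mem_range.1 (mem_filter.1 hq).1; omega)]
    refine (zero_of hp hk1 (ha p) T hTX hk fun x hx y hy hd => ?_).symm
    have h1 := hB x hx
    have h2 := hB y hy
    have := Int.eq_zero_of_abs_lt_dvd hd (abs_lt.2 ⟨by omega, by omega⟩)
    omega

def T2 : Finset ℤ := {29, 59, 31, 3, 149, 5, 151, 7, 269, 241, 271, 11, 41, 13, 43, 73, 103, 17,
  569, 19, 107, 137, 109, 139, 227, 199, 229, 433, 347}

def T4 : Finset ℤ := ({5, 11, 101, 191, 821, 1481, 1871, 2081} : Finset ℤ).biUnion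
  fun q => {q, q + 2, q + 6, q + 8}

theorem T2_sub : ∀ x ∈ T2, x ∈ P2 := by
  have h : ∀ x ∈ T2, ∃ q ∈ ({3, 5, 11, 17, 29, 41, 59, 71, 101, 107, 137, 149, 197, 227, 239, 269,
      347, 431, 569} : Finset ℕ), x = q ∨ x = q + 2 := by decide +kernel
  intro x hx
  obtain ⟨q, hq, h⟩ := h x hx
  refine ⟨q, ?_, ?_, h⟩ <;> fin_cases hq <;> norm_num

theorem T4_sub : ∀ x ∈ T4, x ∈ P4 := by
  have h : ∀ x ∈ T4, ∃ q ∈ ({5, 11, 101, 191, 821, 1481, 1871, 2081} : Finset ℕ),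
      x = q ∨ x = q + 2 ∨ x = q + 6 ∨ x = q + 8 := by decide +kernel
  intro x hx
  obtain ⟨q, hq, h⟩ := h x hx
  refine ⟨q, ?_, ?_, ?_, ?_, h⟩ <;> fin_cases hq <;> norm_num

theorem not_dvd {x : ℤ} (hx : x ∈ P4) : ¬ (29 : ℤ) ∣ x := by
  obtain ⟨q, h0, h2, h6, h8, h⟩ := hx
  have k : ∀ r : ℕ, r.Prime → (29 : ℤ) ∣ r → r = 29 := fun r hr hd =>
    ((Nat.prime_dvd_prime_iff_eq (by norm_num) hr).1 (by exact_mod_cast hd)).symm
  intro hd
  rcases h with rfl | rfl | rfl | rfl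
  · obtain rfl := k q h0 hd; norm_num at h6
  · obtain rfl : q = 27 := by have := k _ h2 (by exact_mod_cast hd); omega
    norm_num at h0
  · obtain rfl : q = 23 := by have := k _ h6 (by exact_mod_cast hd); omega
    norm_num at h2
  · obtain rfl : q = 21 := by have := k _ h8 (by exact_mod_cast hd); omega
    norm_num at h0

theorem dvd4 {a : ℕ → ℤ} (ha : IsOrd P4 29 28 a) :
    emultiplicity ((29 : ℕ) : ℤ) (∏ i ∈ range 28, (a 28 - a i)) ≠ 0 := by
  intro h0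
  have h1 : ∀ j ≤ 28, ∀ i < j, ¬ ((29 : ℕ) : ℤ) ∣ a j - a i := by
    intro j hj i hi hd
    have h2 := ha.2 j (by omega) hj _ (ha.1 28 le_rfl)
    rw [emultiplicity_eq_zero.2 fun h => emultiplicity_eq_zero.1 h0 (h.trans
      (prod_dvd_prod_of_subset _ _ _ (range_mono hj)))] at h2
    exact emultiplicity_eq_zero.1 (le_antisymm h2 bot_le)
      (hd.trans (dvd_prod_of_mem _ (mem_range.2 hi)))
  obtain ⟨i, hi, j, hj, hne, he⟩ := exists_ne_map_eq_of_card_lt_of_maps_to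
    (s := range 29) (t := Ioo (0 : ℤ) 29) (f := fun i => a i % 29) (by simp) (fun i hi => by
      have := not_dvd (ha.1 i (by have := mem_range.1 hi; omega))
      simp only [coe_Ioo, Set.mem_Ioo]; omega)
  simp only [mem_range] at hi hj he
  rcases lt_or_gt_of_ne hne with h | h
  · exact h1 j (by omega) i h (by push_cast; omega)
  · exact h1 i (by omega) j h (by push_cast; omega)

theorem result : ∃ n : ℕ, 1 ≤ n ∧ (n : ℕ∞) < P4.encard ∧ (n : ℕ∞) < P2.encard ∧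
    (∃ N, IsFact P4 n N) ∧ (∃ M, IsFact P2 n M) ∧
    ∀ N M : ℕ, IsFact P4 n N → IsFact P2 n M →
      (N : ℚ) / M ≠ if Even n then 3 * 3 ^ padicValNat 3 n else 1 := by
  have c4 : 28 < T4.card := by decide +kernel
  have c2 : 28 < T2.card := by decide +kernel
  have hc : ∀ (T : Finset ℤ) (X : Set ℤ), 28 < T.card → (∀ x ∈ T, x ∈ X) →
      ((28 : ℕ) : ℕ∞) < X.encard := fun T X h hs =>
    lt_of_lt_of_le (by rw [Set.encard_coe_eq_coe_finsetCard]; exact_mod_cast h)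
      (Set.encard_le_encard (s := (T : Set ℤ)) hs)
  refine ⟨28, by norm_num, hc _ _ c4 T4_sub, hc _ _ c2 T2_sub,
    ex_fact (B := 3000) (by norm_num) T4 T4_sub c4 (by decide +kernel),
    ex_fact (B := 3000) (by norm_num) T2 T2_sub c2 (by decide +kernel), ?_⟩
  rintro N M ⟨-, hN⟩ ⟨hM0, hM⟩ h
  obtain ⟨a, ha, hN⟩ := hN 29 (by norm_num)
  obtain ⟨b, hb, hM⟩ := hM 29 (by norm_num)
  rw [zero_of (by norm_num) (by norm_num) hb T2 T2_sub c2 (by decide +kernel),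
    emultiplicity_eq_zero] at hM
  have h1 := dvd4 ha
  rw [← hN, Ne, emultiplicity_eq_zero, not_not] at h1
  rw [if_pos (by decide), padicValNat.eq_zero_of_not_dvd (by norm_num),
    div_eq_iff (by positivity)] at h
  have h2 : N = 3 * M := by
    have : (N : ℚ) = 3 * M := by simpa using h
    exact_mod_cast this
  subst h2
  push_cast at h1 hM
  omega

end Pool.Agent.Results.MP_38a930_nt.Counter
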